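import Pool.Agent.Y7.EJ.StmO

/-! Project EJ (helper7), part STAGE: one stage of the cascade. -/

open Set Filter Topology MeasureTheory

set_option autoImplicit false

namespace Pool.Agent.Y73.EJ

open Pool.Agent.Y5 hiding S_TAIL
open Pool.Agent.Y5.D Pool.Agent.Y7.EJ

section

variable {lm L C ℓ M hh : ℕ → ℝ} {B : ℕ → ℕ → ℝ}

lemma hinv8 (q : SeqP lm L C ℓ M hh B) (n : ℕ) : 1 ≤ lm n * hh n ^ 2 ∧ 1 ≤ lm n * hh n := by
  have h1 := q.hh_lm n
  have h2 := q.hh_pos n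
  have h3 := hh9 q n
  have h5 := slm q n
  have h4 : hh n ^ 8 ≤ hh n ^ 2 := pow_le_pow_of_le_one h2.le (by linarith) (by norm_num)
  have h4' : hh n ^ 8 ≤ hh n := by
    calc hh n ^ 8 ≤ hh n ^ 1 := pow_le_pow_of_le_one h2.le (by linarith) (by norm_num)
      _ = hh n := pow_one _
  constructor
  · calc (1 : ℝ) ≤ lm n * hh n ^ 8 := h1
      _ ≤ lm n * hh n ^ 2 := by gcongr
  · calc (1 : ℝ) ≤ lm n * hh n ^ 8 := h1
      _ ≤ lm n * hh n := by gcongr

lemma exp_inv {y : ℝ} (_ : 0 < y) : Real.exp (-y) * y ≤ 1 := by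
  rw [Real.exp_neg, ← div_eq_inv_mul, div_le_one (Real.exp_pos _)]
  linarith [Real.add_one_le_exp y]

/-- small exponentials -/
lemma exs (q : SeqP lm L C ℓ M hh B) (n : ℕ) {a : ℝ} (ha : 1 / 2 ≤ a) :
    Real.exp (-a * lm (n + 1)) ≤ hh n / 50 := by
  have h1 := (hinv8 q n).2
  have h2 := slm q n
  have h3 := slm100 q n
  have h4 : 50 * lm n ≤ a * lm (n + 1) := by nlinarith
  have h5 : Real.exp (-a * lm (n + 1)) ≤ Real.exp (-(50 * lm n)) := by
    apply Real.exp_le_exp.2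
    linarith
  refine h5.trans ?_
  have h6 := exp_inv (y := 50 * lm n) (by positivity)
  have h7 := q.hh_pos n
  have h8 := Real.exp_pos (-(50 * lm n))
  calc Real.exp (-(50 * lm n)) = Real.exp (-(50 * lm n)) * 1 := (mul_one _).symm
    _ ≤ Real.exp (-(50 * lm n)) * (lm n * hh n) := by gcongr
    _ = (Real.exp (-(50 * lm n)) * (50 * lm n)) * (hh n / 50) := by ring
    _ ≤ 1 * (hh n / 50) := by gcongr
    _ = hh n / 50 := one_mul _

lemma eta_lt (q : SeqP lm L C ℓ M hh B) (n : ℕ) : eta lm n < hh n := by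
  have h1 := (hinv8 q n).2
  have h2 := slm q n
  have h7 := q.hh_pos n
  have h6 := exp_inv (y := 14 / 10 * lm n) (by positivity)
  have e : eta lm n = Real.exp (-(14 / 10 * lm n)) := by
    unfold eta
    congr 1
    ring
  rw [e]
  have h8 := Real.exp_pos (-(14 / 10 * lm n))
  calc Real.exp (-(14 / 10 * lm n)) = Real.exp (-(14 / 10 * lm n)) * 1 := (mul_one _).symm
    _ ≤ Real.exp (-(14 / 10 * lm n)) * (lm n * hh n) := by gcongr
    _ = (Real.exp (-(14 / 10 * lm n)) * (14 / 10 * lm n)) * (10 / 14 * hh n) := by ring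
    _ ≤ 1 * (10 / 14 * hh n) := by gcongr
    _ < hh n := by linarith

lemma exp_h (q : SeqP lm L C ℓ M hh B) (n : ℕ) :
    Real.exp (-(hh n * lm (n + 1))) ≤ hh (n + 1) := by
  have h1 := (hinv8 q n).1
  have h2 := slm q n
  have h2' := slm q (n + 1)
  have h7 := q.hh_pos n
  have h3 := hh9 q n
  have h4 : hh n ^ 8 ≤ hh n := by
    calc hh n ^ 8 ≤ hh n ^ 1 := pow_le_pow_of_le_one h7.le (by linarith) (by norm_num)
      _ = hh n := pow_one _
  have h5 : lm n ≤ hh n * lm (n + 1) := (q.hh_ratio n).trans (by gcongr)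
  have h6 := exp_inv (y := lm n) h2
  have h8 := Real.exp_pos (-(lm n))
  calc Real.exp (-(hh n * lm (n + 1))) ≤ Real.exp (-(lm n)) := Real.exp_le_exp.2 (by linarith)
    _ = Real.exp (-(lm n)) * 1 := (mul_one _).symm
    _ ≤ Real.exp (-(lm n)) * (lm n * hh n ^ 2) := by gcongr
    _ = (Real.exp (-(lm n)) * lm n) * hh n ^ 2 := by ring
    _ ≤ 1 * hh n ^ 2 := by gcongr
    _ ≤ hh (n + 1) := by rw [one_mul]; exact q.hh_next n

end

theorem t_STAGE (hT : S_TIME) (hTa : S_TAIL) (hXY : S_XY) (hY : S_YP) (hN : S_NEG) (hJ : S_JJ)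
    (hLow : S_LOW) : S_STAGE := by
  intro lm L C ℓ M hh B T x f g n τ ρ hSt hρ
  have q := g.sq
  have hp := q.hh_pos n
  have hp' := q.hh_pos (n + 1)
  have h9 := hh9 q n
  have h9' := hh9 q (n + 1)
  have hs := q.hh_succ n
  have hlm' := slm q (n + 1)
  have hlm2 := slm q (n + 2)
  obtain ⟨hA1, hA2, hA3⟩ := hTa lm L C ℓ M hh B T x f g n τ ρ hSt
  have hsub : Ico τ T ⊆ Ico 0 T := fun t ht => ⟨hSt.τ0.trans ht.1, ht.2⟩
  have cY : ContinuousOn (fun t => √(Y x (n + 2) t)) (Ico τ T) :=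
    Real.continuous_sqrt.comp_continuousOn ((g.Ycont (n + 2)).mono hsub)
  have cI : ∀ i, ContinuousOn (fun t => Gd.I L x i t) (Ico τ T) := fun i =>
    (Pr_cont (g.cabs i)).mono hsub
  have cA : ∀ i, ContinuousOn (fun t => Aa lm L x i τ t) (Ico τ T) := fun i =>
    ((cI (i + 1)).sub continuousOn_const).div_const _
  have cx : ContinuousOn (x (n + 1)) (Ico τ T) := (g.cont (n + 1)).mono hsub
  set F : ℝ → ℝ := fun t => max (max (√(Y x (n + 2) t) - hh (n + 1)) (Aa lm L x n τ t - 17 / 10))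
    (max (hh n / 2 - x (n + 1) t) (Aa lm L x (n + 1) τ t - 5 * hh (n + 1))) with hF
  have cF : ContinuousOn F (Ico τ T) :=
    ((cY.sub continuousOn_const).sup ((cA n).sub continuousOn_const)).sup
      ((continuousOn_const.sub cx).sup ((cA (n + 1)).sub continuousOn_const))
  have hAa0 : ∀ i, Aa lm L x i τ τ = 0 := by
    intro i
    unfold Aa
    rw [sub_self, zero_div]
  have hYτ : √(Y x (n + 2) τ) < hh (n + 1) :=
    (hA1 τ ⟨hSt.τ0, le_rfl⟩).trans_lt (eta_lt q (n + 1))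
  have hF0 : F τ < 0 := by
    show max (max (√(Y x (n + 2) τ) - hh (n + 1)) (Aa lm L x n τ τ - 17 / 10))
      (max (hh n / 2 - x (n + 1) τ) (Aa lm L x (n + 1) τ τ - 5 * hh (n + 1))) < 0
    rw [max_lt_iff, max_lt_iff, max_lt_iff, hAa0, hAa0]
    have := hSt.nxt
    refine ⟨⟨by linarith, by norm_num⟩, by linarith, by linarith⟩
  have key : ∀ t ∈ Ico τ T, (∀ s ∈ Icc τ t, F s ≤ 0) → Gt lm L hh T x n τ t := by
    intro t ht h
    have h' : ∀ s ∈ Icc τ t, (√(Y x (n + 2) s) - hh (n + 1) ≤ 0 ∧ Aa lm L x n τ s - 17 / 10 ≤ 0) ∧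
        hh n / 2 - x (n + 1) s ≤ 0 ∧ Aa lm L x (n + 1) τ s - 5 * hh (n + 1) ≤ 0 := by
      intro s hs
      have h1 := h s hs
      rwa [hF, max_le_iff, max_le_iff, max_le_iff] at h1
    exact ⟨ht.1, ht.2, fun s hs => by linarith [(h' s hs).1.1],
      fun s hs => by linarith [(h' s hs).1.2], fun s hs => by linarith [(h' s hs).2.1],
      fun s hs => by linarith [(h' s hs).2.2]⟩
  rcases first_time cF hF0 with h1 | ⟨t₁, ht₁, h2, h3⟩
  · right
    intro t ht
    exact key t ht fun s hs => (h1 s ⟨hs.1, hs.2.trans_lt ht.2⟩).le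
  · left
    have hG : Gt lm L hh T x n τ t₁ := key t₁ ⟨ht₁.1.le, ht₁.2⟩ (by
      intro s hs
      rcases hs.2.eq_or_lt with h | h
      · rw [h, h2]
      · exact (h3 s ⟨hs.1, h⟩).le)
    obtain ⟨hT1, hT2⟩ := hT lm L C ℓ M hh B T x f g n τ ρ t₁ hSt hG
    obtain ⟨y1, y2, _, _⟩ := hY lm L C ℓ M hh B T x f g n τ ρ t₁ hSt hG
    have hl := hLow lm L C ℓ M hh B T x f g n τ ρ t₁ hSt hG
    have hj := hJ lm L C ℓ M hh B T x f g n τ ρ t₁ hSt hG
    obtain ⟨hB1, hB2, hB3, hB4⟩ := hA3 t₁ hG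
    have ht0 : t₁ ∈ Ico 0 T := ⟨hSt.τ0.trans ht₁.1.le, ht₁.2⟩
    have hπ := Real.pi_lt_d2
    have hπ' := Real.pi_gt_d2
    -- the threshold is reached
    have hthr : √(Y x (n + 2) t₁) = hh (n + 1) := by
      have h4 : √(Y x (n + 2) t₁) ≤ hh (n + 1) := hG.thr t₁ ⟨ht₁.1.le, le_rfl⟩
      by_contra hne
      have h5 : √(Y x (n + 2) t₁) < hh (n + 1) := lt_of_le_of_ne h4 hne
      have h6 : F t₁ < 0 := by
        show max (max (√(Y x (n + 2) t₁) - hh (n + 1)) (Aa lm L x n τ t₁ - 17 / 10))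
          (max (hh n / 2 - x (n + 1) t₁) (Aa lm L x (n + 1) τ t₁ - 5 * hh (n + 1))) < 0
        rw [max_lt_iff, max_lt_iff, max_lt_iff]
        refine ⟨⟨by linarith, by linarith⟩, by linarith, by linarith⟩
      linarith
    have ht₁I : t₁ ∈ Icc τ t₁ := ⟨ht₁.1.le, le_rfl⟩
    -- the angle
    have hAlo : Real.pi / 2 - 13 * hh n ≤ Aa lm L x n τ t₁ := by
      by_contra hcon
      push Not at hcon
      have h4 := hB2 t₁ ht₁I
      rw [hthr] at h4
      have h5 : lm (n + 1) * (Aa lm L x n τ t₁ - Real.pi / 2 + 12 * hh n) <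
          -(hh n * lm (n + 1)) := by
        have h6 : Aa lm L x n τ t₁ - Real.pi / 2 + 12 * hh n < -(hh n) := by linarith
        have := mul_lt_mul_of_pos_left h6 hlm'
        linarith
      have h6 := Real.exp_lt_exp.2 h5
      have h7 := exp_h q n
      linarith
    -- the mode n+1
    have hcar : ρ - hh n / 50 ≤ x (n + 1) t₁ := by
      have h4 := (hXY lm L C ℓ M hh B T x f g n τ ρ t₁ hSt hG).2
      obtain ⟨δ, hδ⟩ : ∃ δ, δ = Aa lm L x n τ t₁ - Real.pi / 2 := ⟨_, rfl⟩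
      have hA : Aa lm L x n τ t₁ = δ + Real.pi / 2 := by rw [hδ]; ring
      rw [hA, Real.sin_add_pi_div_two, Real.cos_add_pi_div_two] at h4
      have hδ1 : -(13 * hh n) ≤ δ := by linarith
      have hδ2 : δ ≤ hh n := by linarith
      have hcos := Real.one_sub_sq_div_two_le_cos (x := δ)
      have hδsq : δ ^ 2 ≤ (13 * hh n) ^ 2 := by
        apply sq_le_sq'
        · exact hδ1
        · linarith
      have hcos' : 1 - 85 * hh n ^ 2 ≤ Real.cos δ := by nlinarith [sq_nonneg (hh n)]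
      have hsin : Real.sin δ ≤ hh n := by
        rcases le_or_gt 0 δ with h0 | h0
        · exact (Real.sin_le h0).trans hδ2
        · have : Real.sin δ ≤ 0 :=
            Real.sin_nonpos_of_nonpos_of_neg_pi_le h0.le (by linarith)
          linarith
      have hX0 := hSt.car
      have hX1 : x n τ ≤ 1 := (le_abs_self _).trans (g.abs_le_one ⟨hSt.τ0, hSt.τT⟩ n)
      have hY0 : x (n + 1) τ ≤ hh n := by
        rw [← hSt.thr]
        exact (le_abs_self _).trans (g.abs_le_sqrt ⟨hSt.τ0, hSt.τT⟩ le_rfl)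
      have hY1 : 0 ≤ x (n + 1) τ := by linarith [hSt.nxt]
      have hρ9 := hSt.ρ9
      have hh2 : hh n ^ 2 ≤ hh n / 10 ^ 9 := by
        have : hh n * hh n ≤ hh n * (1 / 10 ^ 9) := by gcongr
        calc hh n ^ 2 = hh n * hh n := sq _
          _ ≤ hh n * (1 / 10 ^ 9) := this
          _ = _ := by ring
      have e1 : ρ - 85 * hh n ^ 2 ≤ x n τ * Real.cos δ := by
        have h5 : x n τ * (1 - 85 * hh n ^ 2) ≤ x n τ * Real.cos δ := by
          apply mul_le_mul_of_nonneg_left hcos'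
          linarith
        have h6 : x n τ * (85 * hh n ^ 2) ≤ 1 * (85 * hh n ^ 2) := by gcongr
        linarith
      have e2 : -(hh n ^ 2) ≤ x (n + 1) τ * -Real.sin δ := by
        have h5 : x (n + 1) τ * Real.sin δ ≤ x (n + 1) τ * hh n := by gcongr
        have h6 : x (n + 1) τ * hh n ≤ hh n * hh n := by gcongr
        nlinarith
      have h5 := neg_le_of_abs_le h4
      linarith
    -- the mode n+2
    have hnxt : 99 / 100 * hh (n + 1) ≤ x (n + 2) t₁ := by
      have h4 := hN lm L C ℓ M hh B T x f g (n + 1) t₁ ht0 (by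
        have : (0 : ℝ) ≤ (1 / 2) ^ (n + 1) := by positivity
        have h5 := slm q 0
        nlinarith) (by
        refine (hB1 t₁ ht₁I).trans ?_
        nlinarith) hB4 t₁ ⟨ht0.1, le_rfl⟩
      have e0 : n + 1 + 1 = n + 2 := rfl
      rw [e0] at h4
      have h5 : Real.exp (-(1 / 2) * lm (n + 2)) ≤ hh (n + 1) / 50 :=
        exs q (n + 1) (a := 1 / 2) le_rfl
      have h6 : eta lm (n + 2) ≤ hh (n + 1) / 50 := exs q (n + 1) (a := 14 / 10) (by norm_num)
      have h7 := g.Y_succ ht0 (n + 2)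
      have h8 : Y x (n + 2) t₁ = hh (n + 1) ^ 2 := by
        rw [← hthr, Real.sq_sqrt (Gd.Y_nonneg _ _)]
      have h10 : Y x (n + 2 + 1) t₁ ≤ (hh (n + 1) / 50) ^ 2 := by
        rw [← Real.sq_sqrt (Gd.Y_nonneg (x := x) (n + 2 + 1) t₁)]
        apply pow_le_pow_left₀ (Real.sqrt_nonneg _)
        exact (hB4 t₁ ⟨ht0.1, le_rfl⟩).trans h6
      have h11 : (99 / 100 * hh (n + 1)) ^ 2 ≤ x (n + 2) t₁ ^ 2 := by nlinarith
      have h12 := sq_le_sq.1 h11
      rw [abs_of_pos (by positivity)] at h12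
      rcases le_or_gt 0 (x (n + 2) t₁) with h0 | h0
      · rwa [abs_of_nonneg h0] at h12
      · rw [abs_of_neg h0] at h12
        linarith
    refine ⟨t₁, ht₁.1, ht0.1, ht₁.2, hρ, hcar, hthr, hnxt, ?_, ?_, hT2⟩
    · refine (hB1 t₁ ht₁I).trans ?_
      nlinarith
    · have h4 : Aa lm L x (n + 1) τ t₁ * lm (n + 2) = Gd.I L x (n + 2) t₁ - Gd.I L x (n + 2) τ := by
        unfold Aa
        exact div_mul_cancel₀ _ hlm2.ne'
      have h5 : Aa lm L x (n + 1) τ t₁ * lm (n + 2) ≤ 4 * hh (n + 1) * lm (n + 2) := by gcongr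
      show Gd.I L x (n + 2) t₁ ≤ 10 * hh (n + 1) * lm (n + 2)
      have h6 : 0 ≤ hh (n + 1) * lm (n + 2) := by positivity
      nlinarith

end Pool.Agent.Y73.EJ
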